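import Pool.Agent.Helper17.OD.GoalsGE

/-!
# Packet SV3: (V3) by homogeneity
-/

namespace Pool.Agent.Helper17.OD.PkSV3

open Set

theorem dec_zero : dec (.nat 0 : T) = ∅ := by
  ext x
  simp [dec]

theorem nat_mem' (n : ℕ) (A : Set O) : (Tr.nat n : T) ∈ D A := by simp [D, Tr.leaves]

theorem canon_zero : Canon (.nat 0 : T) := by
  intro c' h
  have h0 : supl (.nat 0 : T) = 0 := by
    unfold supl
    refine le_antisymm (csInf_le' ?_) zero_le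
    exact nat_mem' 0 _
  rcases h with h | ⟨-, h⟩
  · rw [h0] at h
    exact absurd h (not_lt.mpr zero_le)
  · cases c' with
    | nat n => simp [Tr.lt] at h
    | ord a => simp [Tr.lt] at h
    | pr s t => simp [Tr.lt] at h

theorem nth_zero : ∀ i, nth (.nat 0 : T) i = .nat 0
  | 0 => rfl
  | n + 1 => nth_zero n

theorem nm_zero (F : FD) : IsNm F (.nat 0) := by
  refine ⟨nat_mem' 0 _, canon_zero, 0, ?_, ?_⟩
  · exact lt_of_le_of_lt zero_le F.g.wk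
  · rw [dec_zero]
    intro z hz
    exact absurd hz (Set.notMem_empty z)

theorem evl_zero (G : Set T) : evl G (dec (.nat 0)) = ∅ := by
  rw [dec_zero]
  ext y
  simp [evl]

/-- Truth in a generic extension, for formulas without set parameters. -/
theorem truth (hT : G_TRL) (F : FD) (G : Set T) (hG : F.Gen G) (φ : SF) (e : T)
    (he : e ∈ D (Iio F.κ)) :
    Sat F.κ (SG F G) φ e (fun _ => ∅) ↔ ∃ p ∈ G, Frc F φ p e (fun _ => .nat 0) := by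
  have h := hT F G hG φ e he (fun _ => .nat 0) (fun _ => nm_zero F)
  simp only [evl_zero] at h
  exact h

/-- Conditions which decide a sentence decide it as in any generic extension. -/
theorem homog (hH : G_HGT) (hQ : G_EQL) (hN : G_GNE) (hT : G_TRL) (F : FD)
    (hE : ∀ p' ∈ F.P F.κ, ∀ q' ∈ F.P F.κ,
      (∀ i < F.κ, ln p' i = ln q' i) → ∀ j ≤ F.κ, EiP F p' q' j ∧ EiP F q' p' j)
    (G : Set T) (hG : F.Gen G) (φ : SF) (e : T) (he : e ∈ D (Iio F.κ)) (p : T)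
    (hp : p ∈ F.P F.κ) (hF : Frc F φ p e (fun _ => .nat 0)) :
    Sat F.κ (SG F G) φ e (fun _ => ∅) := by
  by_contra hcon
  have h1 : Sat F.κ (SG F G) (.nand φ φ) e (fun _ => ∅) := fun h => hcon h.1
  obtain ⟨q, hq, hq2⟩ := (truth hT F G hG (.nand φ φ) e he).mp h1
  obtain ⟨p', hp', q', hq', hpp, hqq, hl⟩ := hQ F p hp q (hG.sub hq)
  obtain ⟨G1, hG1, hpG1⟩ := hN F p' hp'
  obtain ⟨G2, hG2, hqG2, hSG⟩ := hH F p' hp' q' hq' hl (hE p' hp' q' hq' hl) G1 hG1 hpG1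
  have h2 : Sat F.κ (SG F G1) φ e (fun _ => ∅) :=
    (truth hT F G1 hG1 φ e he).mpr ⟨p, hG1.up p' hpG1 p hp hpp, hF⟩
  have h3 : Sat F.κ (SG F G2) (.nand φ φ) e (fun _ => ∅) :=
    (truth hT F G2 hG2 _ e he).mpr ⟨q, hG2.up q' hqG2 q (hG.sub hq) hqq, hq2⟩
  rw [hSG] at h3
  exact h3 ⟨h2, h2⟩

theorem thm (hH : G_HGT) (hQ : G_EQL) (hN : G_GNE) (hT : G_TRL) (hD : G_FSD) (hK : G_KSM)
    (hU : G_PUN) : G_SV3 := by
  intro F hE G hG φ e he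
  have := F.g.m1
  have hwκ := F.g.wk
  have hκγ := F.g.kg
  have hwγ : F.w < F.γ := hwκ.trans hκγ
  have hset : {x | x ∈ D (Iio F.w) ∧ Sat F.κ (SG F G) φ (.pr x e) (fun _ => ∅)} =
      {x | x ∈ D (Iio F.w) ∧ ∃ p ∈ D (Iio F.γ), p ∈ F.P F.κ ∧ Tr.pr x e ∈ D (Iio F.κ) ∧
        (Tr.nat 0 : T) ∈ D (Iio F.κ) ∧ Frc F φ p (.pr x e) (nth (.nat 0))} := by
    ext x
    have hfun : nth (.nat 0 : T) = fun _ => .nat 0 := funext nth_zero
    rw [hfun]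
    constructor
    · rintro ⟨hx, hs⟩
      have hxe : Tr.pr x e ∈ D (Iio F.κ) := pr_mem.2 ⟨D_mono (Iio_subset_Iio hwκ.le) hx, he⟩
      obtain ⟨p, hp, hp2⟩ := (truth hT F G hG φ _ hxe).mp hs
      have hpP := hG.sub hp
      have hlow := (((hU F).2 F.κ p).mp hpP).low
      exact ⟨hx, p, D_mono (Iio_subset_Iio hκγ.le) hlow, hpP, hxe, nat_mem' 0 _, hp2⟩
    · rintro ⟨hx, p, -, hpP, hxe, -, hp2⟩
      exact ⟨hx, homog hH hQ hN hT F hE G hG φ _ hxe p hpP hp2⟩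
  rw [hset]
  have hSD := (hD F).2 φ
  have heγ : e ∈ D (Iio F.γ) := D_mono (Iio_subset_Iio hκγ.le) he
  have hP : SD F.γ (Con F.γ) (Con F.γ) (fun x _ => ∃ p ∈ D (Iio F.γ), p ∈ F.P F.κ ∧
      Tr.pr x e ∈ D (Iio F.κ) ∧ (Tr.nat 0 : T) ∈ D (Iio F.κ) ∧
      Frc F φ p (.pr x e) (nth (.nat 0))) := by
    refine SD.exT (P := fun x p _ => p ∈ F.P F.κ ∧ Tr.pr x e ∈ D (Iio F.κ) ∧
      (Tr.nat 0 : T) ∈ D (Iio F.κ) ∧ Frc F φ p (.pr x e) (nth (.nat 0))) ?_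
    have hsub := SD.sub (t := fun z : T => .pr z.fst (.pr (.pr z.snd e) (.nat 0))) hSD
      ((ST.id.fst).pr (((ST.id.snd).pr (ST.const heγ)).pr (ST.nat 0)))
    exact hsub
  have hM := SOM.sep hP hwγ
  exact ((hK F.w F.κ F.γ F.g).2.1 _).mpr ⟨hM, F.w, hwκ, fun x hx => hx.1⟩

end Pool.Agent.Helper17.OD.PkSV3
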